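import Pool.Agent.Helper38.XF.Spec

/-!
Part CLO: countable subfields closed under `p`-components and algebraic elements.
-/

set_option autoImplicit false

namespace Pool.Agent.Helper86.XF.CLO

open Polynomial Pool.Agent.Helper38.XF

theorem countable_closure {L : Type} [Field L] (s : Set L) (hs : s.Countable) :
    ((Subfield.closure s : Subfield L) : Set L).Countable := by
  have h1 := Subfield.cardinalMk_closure_le_max s
  have h2 : Cardinal.mk s ≤ Cardinal.aleph0 := Cardinal.le_aleph0_iff_set_countable.mpr hs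
  rw [max_eq_right h2] at h1
  exact Cardinal.le_aleph0_iff_set_countable.mp h1

theorem alg_lift {L : Type} [Field L] (k : Subfield L) (K : ℕ → Subfield L) (hmono : Monotone K)
    (hk : ∀ x, x ∈ k → ∃ n, x ∈ K n) (x : L) (hx : IsAlgebraic k x) :
    ∃ n, IsAlgebraic (K n) x := by
  classical
  obtain ⟨p, hp0, hp⟩ := hx
  choose f hf using fun i => hk (p.coeff i : L) (p.coeff i).2
  let n := p.support.sup f
  have hn : ∀ i, (p.coeff i : L) ∈ K n := by
    intro i
    by_cases hi : i ∈ p.support
    · exact hmono (Finset.le_sup (f := f) hi) (hf i)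
    · have : p.coeff i = 0 := by simpa using hi
      rw [this]
      exact (K n).zero_mem
  let P : L[X] := p.map k.subtype
  have hP : P ∈ lifts (K n).subtype := by
    rw [lifts_iff_coeff_lifts]
    intro i
    refine ⟨⟨(p.coeff i : L), hn i⟩, ?_⟩
    simp [P]
  obtain ⟨q, hq⟩ := hP
  have hq' : q.map (K n).subtype = P := hq
  have hP0 : P ≠ 0 := by
    intro h
    exact hp0 ((Polynomial.map_eq_zero_iff k.subtype.injective).mp h)
  refine ⟨n, q, ?_, ?_⟩
  · rintro rfl
    apply hP0
    rw [← hq']
    simp
  · have h1 : aeval x q = eval x (q.map (K n).subtype) := by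
      rw [aeval_def, eval_map]
      rfl
    have h2 : aeval x p = eval x (p.map k.subtype) := by
      rw [aeval_def, eval_map]
      rfl
    rw [h1, hq', ← h2, hp]

theorem main : St_CLO := by
  intro p _ L _ _ t hPB C hC
  classical
  choose comp hcomp using hPB.1
  have hpu : ∀ (z : L) (c : Fin p → L), z = ∑ i, c i ^ p * t ^ (i : ℕ) → c = comp z := by
    intro z c hz
    have h1 : ∑ i, (fun i => c i - comp z i) i ^ p * t ^ (i : ℕ) = 0 := by
      have h2 : ∀ i, (c i - comp z i) ^ p * t ^ (i : ℕ) =
          c i ^ p * t ^ (i : ℕ) - comp z i ^ p * t ^ (i : ℕ) := by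
        intro i
        rw [sub_pow_char, sub_mul]
      simp only [h2]
      rw [Finset.sum_sub_distrib, ← hz, ← hcomp z, sub_self]
    have h3 := hPB.2 _ h1
    funext i
    exact sub_eq_zero.mp (h3 i)
  let step : Subfield L → Subfield L := fun k =>
    Subfield.closure (((k : Set L) ∪ (⋃ z ∈ (k : Set L), Set.range (comp z))) ∪
      {x | IsAlgebraic k x})
  obtain ⟨K, hK0, hKs⟩ : ∃ K : ℕ → Subfield L, K 0 = Subfield.closure (C ∪ {t}) ∧
      ∀ n, K (n + 1) = step (K n) :=
    ⟨fun n => Nat.rec (Subfield.closure (C ∪ {t})) (fun _ k => step k) n, rfl, fun _ => rfl⟩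
  have hle : ∀ n, K n ≤ K (n + 1) := by
    intro n x hx
    rw [hKs]
    exact Subfield.subset_closure (Or.inl (Or.inl hx))
  have hmono : Monotone K := monotone_nat_of_le_succ hle
  have hcount : ∀ n : ℕ, ((K n : Subfield L) : Set L).Countable := by
    intro n
    induction n with
    | zero =>
      rw [hK0]
      exact countable_closure _ (hC.union (Set.countable_singleton t))
    | succ n ih =>
      rw [hKs]
      refine countable_closure _ ?_
      refine (ih.union ?_).union ?_
      · exact ih.biUnion fun z _ => Set.countable_range _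
      · have : Countable (K n) := Set.Countable.to_subtype ih
        exact Algebraic.countable (R := K n) (A := L)
  have hdir : Directed (· ≤ ·) K := hmono.directed_le
  let k : Subfield L := ⨆ n, K n
  have hmem : ∀ x, x ∈ k ↔ ∃ n, x ∈ K n := fun x => Subfield.mem_iSup_of_directed hdir
  refine ⟨k, ?_, ?_, ⟨?_, ?_⟩, ?_⟩
  · intro x hx
    exact (hmem x).2 ⟨0, hK0 ▸ Subfield.subset_closure (Or.inl hx)⟩
  · have : (k : Set L) = ⋃ n, (K n : Set L) := Subfield.coe_iSup_of_directed hdir
    rw [this]
    exact Set.countable_iUnion hcount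
  · exact (hmem t).2 ⟨0, hK0 ▸ Subfield.subset_closure (Or.inr rfl)⟩
  · intro c hc i
    obtain ⟨n, hn⟩ := (hmem _).1 hc
    refine (hmem _).2 ⟨n + 1, ?_⟩
    rw [hKs]
    refine Subfield.subset_closure (Or.inl (Or.inr ?_))
    refine Set.mem_biUnion hn ?_
    rw [← hpu _ c rfl]
    exact ⟨i, rfl⟩
  · intro x hx
    obtain ⟨n, hn⟩ := alg_lift k K hmono (fun x hx => (hmem x).1 hx) x hx
    refine (hmem _).2 ⟨n + 1, ?_⟩
    rw [hKs]
    exact Subfield.subset_closure (Or.inr hn)

end Pool.Agent.Helper86.XF.CLO
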